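import Pool.Agent.U29.EU.Stm

/-!
# Project EU, package SLAB: the measure of a slab in a cube
-/

set_option autoImplicit false

namespace Pool.Agent.U981.EU.SLAB

open MeasureTheory Set Pool.Agent.U29.EU

theorem t_SLAB : S_SLAB := by
  classical
  intro ι _ V a b h R ha hh hR ⟨i₀, hi₀⟩
  -- the linear map
  let φ : (ι → ℝ) →ₗ[ℝ] ℝ := (∑ j, V j • (LinearMap.proj j : (ι → ℝ) →ₗ[ℝ] ℝ)) - LinearMap.proj i₀
  have hφ : ∀ c : ι → ℝ, φ c = ∑ j, c j * V j - c i₀ := by
    intro c
    simp only [φ, LinearMap.sub_apply, LinearMap.coe_sum, Finset.sum_apply, LinearMap.smul_apply,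
      LinearMap.proj_apply, smul_eq_mul]
    congr 1
    exact Finset.sum_congr rfl fun j _ => mul_comm _ _
  let T : (ι → ℝ) →ₗ[ℝ] (ι → ℝ) := LinearMap.transvection φ (Pi.single i₀ 1)
  have hT : ∀ c : ι → ℝ, T c = c + φ c • (Pi.single i₀ (1 : ℝ) : ι → ℝ) := fun c => rfl
  have hdet : LinearMap.det T = V i₀ := by
    have h1 := LinearMap.transvection.det φ (Pi.single i₀ (1 : ℝ))
    have h2 : φ (Pi.single i₀ (1 : ℝ)) = V i₀ - 1 := by
      rw [hφ]
      simp [Pi.single_apply]
    rw [h2] at h1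
    rw [show LinearMap.det T = 1 + (V i₀ - 1) from h1]
    ring
  have hV : V i₀ ≠ 0 := by
    intro h0
    rw [h0, abs_zero] at hi₀
    linarith
  have hd0 : LinearMap.det T ≠ 0 := by rw [hdet]; exact hV
  let B : ι → Set ℝ := fun j => if j = i₀ then Icc (-b - h) (-b + h) else Icc (-R) R
  have hsub : {c : ι → ℝ | (∀ i, |c i| ≤ R) ∧ |b + ∑ i, c i * V i| ≤ h} ⊆ T ⁻¹' (Set.pi univ B) := by
    rintro c ⟨h1, h2⟩
    rw [mem_preimage, mem_univ_pi]
    intro j
    by_cases hj : j = i₀
    · subst hj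
      have e : T c j = ∑ i, c i * V i := by
        rw [hT, Pi.add_apply, Pi.smul_apply, Pi.single_eq_same, hφ]
        simp
      rw [e]
      simp only [B, if_true]
      rw [abs_le] at h2
      exact ⟨by linarith [h2.1], by linarith [h2.2]⟩
    · have e : T c j = c j := by
        rw [hT, Pi.add_apply, Pi.smul_apply, Pi.single_eq_of_ne hj]
        simp
      rw [e]
      simp only [B, if_neg hj]
      exact abs_le.1 (h1 j)
  refine (measure_mono hsub).trans ?_
  rw [Measure.addHaar_preimage_linearMap _ hd0, hdet, volume_pi_pi]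
  have hB : ∏ j, volume (B j) = ENNReal.ofReal (2 * h) * ENNReal.ofReal (2 * R) ^
      (Fintype.card ι - 1) := by
    rw [← Finset.mul_prod_erase Finset.univ (fun j => volume (B j)) (Finset.mem_univ i₀)]
    congr 1
    · simp only [B, if_true, Real.volume_Icc]
      congr 1
      ring
    · rw [Finset.prod_congr rfl (g := fun _ => ENNReal.ofReal (2 * R)), Finset.prod_const,
        Finset.card_erase_of_mem (Finset.mem_univ i₀), Finset.card_univ]
      intro j hj
      have hj' := Finset.ne_of_mem_erase hj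
      simp only [B, if_neg hj', Real.volume_Icc]
      congr 1
      ring
  rw [hB, ← ENNReal.ofReal_pow (by positivity), ← ENNReal.ofReal_mul (by positivity),
    ← ENNReal.ofReal_mul (abs_nonneg _)]
  apply ENNReal.ofReal_le_ofReal
  rw [abs_inv]
  have h3 : |V i₀|⁻¹ ≤ a⁻¹ := inv_anti₀ ha hi₀
  calc |V i₀|⁻¹ * (2 * h * (2 * R) ^ (Fintype.card ι - 1))
      ≤ a⁻¹ * (2 * h * (2 * R) ^ (Fintype.card ι - 1)) :=
        mul_le_mul_of_nonneg_right h3 (by positivity)
    _ = (2 * R) ^ (Fintype.card ι - 1) * (2 * h / a) := by ring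

end Pool.Agent.U981.EU.SLAB
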